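import Pool.Agent.helper65.GD.SpecF

/-! # Row XZ1 (second prover: helper19) -/

set_option autoImplicit false

namespace Pool.Agent.GD

open Finset Metric Filter Topology

theorem XZ1 (h1 : XLB_stmt) (h2 : XGR_stmt) (h3 : XCB_stmt) : XZ1_stmt := by
  intro N w x A hA
  have hap : Approx (mom w x) := by
    intro M ε hε
    exact ⟨N, w, x, hA, fun m _ => by simpa using hε⟩
  have hb : ∀ m, ‖mom w x m‖ ≤ 1 := fun m => h3.1 _ m hap
  have hg := h2 (mom w x) hb
  obtain ⟨β, hβ⟩ : ∃ β, β = mom w x := ⟨_, rfl⟩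
  obtain ⟨a, ha⟩ : ∃ a, a = ex 2 β := ⟨_, rfl⟩
  have hr := ex_rec 2 β
  have hl := h1 N w x
  rw [← hβ] at hg hl ⊢
  rw [← ha] at hg hr ⊢
  have e1 := hr.2 (A + 1)
  have e2 := hr.2 A
  rw [Finset.sum_range_succ] at e1
  have hA1 : ((A : ℂ) + 1) ≠ 0 := by exact_mod_cast Nat.succ_ne_zero A
  have key : ((A : ℂ) + 1) * (a (A + 1) - 2 * β 1 * a A) =
      2 * ∑ m ∈ range A, (β (A - m + 1) - 2 * β 1 * β (A - m)) * a m := by
    have e3 : ∑ m ∈ range A, (β (A - m + 1) - 2 * β 1 * β (A - m)) * a m =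
        (∑ m ∈ range A, β (A + 1 - m) * a m) - 2 * β 1 * ∑ m ∈ range A, β (A - m) * a m := by
      rw [Finset.mul_sum, ← Finset.sum_sub_distrib]
      refine Finset.sum_congr rfl fun m hm => ?_
      have hm' := mem_range.1 hm
      rw [show A + 1 - m = A - m + 1 by omega]
      ring
    rw [e3]
    have e4 : A + 1 - A = 1 := by omega
    rw [e4] at e1
    push_cast at e1
    linear_combination e1 - 2 * β 1 * e2
  have hn : ‖((A : ℂ) + 1) * (a (A + 1) - 2 * β 1 * a A)‖ ≤ (A : ℝ) * (A + 1) := by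
    rw [key, norm_mul]
    have h5 : ‖∑ m ∈ range A, (β (A - m + 1) - 2 * β 1 * β (A - m)) * a m‖ ≤
        ∑ m ∈ range A, ((m : ℝ) + 1) := by
      refine (norm_sum_le _ _).trans (Finset.sum_le_sum fun m hm => ?_)
      rw [norm_mul]
      have h6 : ‖β (A - m + 1) - 2 * β 1 * β (A - m)‖ ≤ 1 := by
        have := hl (A - m) hA
        rw [hβ] at this ⊢
        exact this
      calc _ ≤ 1 * ((m : ℝ) + 1) :=
            mul_le_mul h6 (hg m) (norm_nonneg _) (by norm_num)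
        _ = _ := one_mul _
    have h7 : ∀ B : ℕ, 2 * ∑ m ∈ range B, ((m : ℝ) + 1) = (B : ℝ) * (B + 1) := by
      intro B
      induction B with
      | zero => simp
      | succ B ih =>
        rw [Finset.sum_range_succ, mul_add, ih]
        push_cast
        ring
    rw [← h7 A]
    have h8 : ‖(2 : ℂ)‖ = 2 := by norm_num
    rw [h8]
    exact mul_le_mul_of_nonneg_left h5 (by norm_num)
  rw [norm_mul] at hn
  have h9 : ‖((A : ℂ) + 1)‖ = (A : ℝ) + 1 := by
    have : ((A : ℂ) + 1) = ((A + 1 : ℕ) : ℂ) := by push_cast; rfl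
    rw [this, Complex.norm_natCast]
    push_cast
    rfl
  rw [h9] at hn
  have hpos : (0 : ℝ) < (A : ℝ) + 1 := by positivity
  have : ((A : ℝ) + 1) * ‖a (A + 1) - 2 * β 1 * a A‖ ≤ ((A : ℝ) + 1) * A := by
    rw [mul_comm ((A : ℝ) + 1) (A : ℝ)]
    exact hn
  exact le_of_mul_le_mul_left this hpos

end Pool.Agent.GD
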